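import Pool.Agent.Helper68.EP.St4

/-!
# Project EP: module EZ1, a single class
-/

set_option autoImplicit false

open MeasureTheory Set Filter Topology
open scoped ENNReal RealInnerProductSpace

namespace Pool.Agent.Helper11.EP

open Pool.Agent.Helper68.EP Pool.Agent.Helper20.RG
open Pool.Agent.Helper20.RL (RQ Rich BM Fml)

theorem g_pos (P : Par) : 0 < P.g := by
  unfold Par.g
  have := P.hs
  linarith

theorem BM_lt_top {E : Set (Pool.Agent.Helper68.LM.Pl)} (h : BM E) : volume E < ⊤ := by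
  have := h
  unfold BM at this
  exact this.2.measure_lt_top

theorem hEZ1 (hEVF : StEVF) (hEPA : StEPA) (hEV0 : StEV0) (hEAP : StEAP) (hEZM : StEZM)
    (hEN1 : StEN1) (hEN2 : StEN2) : StEZ1 := by
  intro P
  obtain ⟨C, hC, hZM⟩ := hEZM P
  obtain ⟨u₁, hu₁, hN1⟩ := hEN1 P
  obtain ⟨u₂, hu₂, hN2⟩ := hEN2 P
  have hg := g_pos P
  refine ⟨8 * C, max (max u₁ u₂) ⌈1 / (30 * P.g)⌉₊, by linarith, ?_⟩
  intro Δ u θ E hSy hu hθ hθ1 hE
  have hu1 : u₁ ≤ u := le_trans (le_trans (le_max_left _ _) (le_max_left _ _)) hu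
  have hu2 : u₂ ≤ u := le_trans (le_trans (le_max_right _ _) (le_max_left _ _)) hu
  have hu3 : 1 / (30 * P.g) ≤ u := le_trans (Nat.le_ceil _) (by exact_mod_cast le_trans (le_max_right _ _) hu)
  have hok : Ok P u θ := (hN1 u θ hu1 hθ hθ1).1
  have hθ0 : 0 < θ := hok.th.1
  have hEfin : volume E < ⊤ := BM_lt_top hE
  have hwt : wt P u ≠ ⊤ := ENNReal.ofReal_ne_top
  -- `VM = Vc`
  have hVM : ∀ j ∈ Finset.range (2 ^ u), ∀ k : ℤ, VM P Δ u j k θ 0 E = Vc P Δ u j k θ E := by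
    intro j hj k
    exact hEV0 P Δ u j k θ E hSy hok (Finset.mem_range.1 hj) hE
  have hS : SMu P Δ u θ 0 E = SVu P Δ u θ E := by
    unfold SMu SVu
    congr 1
    apply Finset.sum_congr rfl
    intro j hj
    exact tsum_congr (fun k => by rw [hVM j hj k])
  -- finiteness
  have hfin : SMu P Δ u θ 0 E ≠ ⊤ := by
    rw [hS]
    unfold SVu
    apply ENNReal.mul_ne_top hwt
    refine (ENNReal.sum_lt_top.2 ?_).ne
    intro j hj
    refine lt_of_le_of_lt (hEAP P Δ u j θ E hSy hok (Finset.mem_range.1 hj) hE) ?_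
    exact ENNReal.mul_lt_top ENNReal.ofReal_lt_top hEfin
  -- the master inequality
  have hM := hZM Δ u u θ 0 E hSy (fun v h1 h2 => by
    have : v = u := le_antisymm h2 h1
    subst this
    exact hok) hE hθ0
  rw [Finset.Icc_self, Finset.sum_singleton, Finset.sum_singleton, Finset.sum_singleton] at hM
  have hmax : max (1 : ℝ) 0 = 1 := max_eq_left (by norm_num)
  rw [hmax, Real.one_rpow, mul_one] at hM
  -- the coefficient
  set c : ℕ → ℝ := fun q => (2 ^ q1 P u / 2 ^ (q - 4) + 1) * cq P u q θ with hc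
  have hc0 : ∀ q, 0 ≤ c q := by
    intro q
    have h1 : 0 ≤ cq P u q θ := by
      unfold cq DD et
      positivity
    have h2 : (0 : ℝ) ≤ 2 ^ q1 P u / 2 ^ (q - 4) + 1 := by positivity
    exact mul_nonneg h2 h1
  have hB : SBu P Δ u u θ 0 E ≤
      (∑ q ∈ Finset.Ico (q0 P u) (q1 P u), ENNReal.ofReal (c q)) * SMu P Δ u θ 0 E := by
    unfold SBu SMu
    rw [mul_left_comm]
    gcongr
    rw [Finset.mul_sum]
    apply Finset.sum_le_sum
    intro j hj
    rw [← ENNReal.tsum_mul_left]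
    apply ENNReal.tsum_le_tsum
    intro k
    rw [Finset.sum_mul]
    apply Finset.sum_le_sum
    intro q hq
    rw [Finset.mem_Ico] at hq
    exact hEPA P Δ u q u j k θ E (VM P Δ u j k θ 0 E) hSy hok hok le_rfl hq.1 hq.2
      (Finset.mem_range.1 hj) hE ((hEVF P Δ u j k θ E hE hθ0).2.2.1 0)
  have hcs : 4 / θ * ∑ q ∈ Finset.Ico (q0 P u) (q1 P u), c q ≤ 1 / 2 := by
    refine le_trans ((hN2 u θ hu2 hθ1).1 hθ) ?_
    have h1 : (2 : ℝ) ^ (-(30 * P.g * u)) ≤ (2 : ℝ) ^ (-(1 : ℝ)) := by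
      apply Real.rpow_le_rpow_of_exponent_le (by norm_num)
      have h2 : 1 ≤ 30 * P.g * u := by
        rw [div_le_iff₀ (by positivity)] at hu3
        linarith
      linarith
    refine le_trans h1 ?_
    rw [Real.rpow_neg_one]
    norm_num
  have hB2 : ENNReal.ofReal (4 / θ) * SBu P Δ u u θ 0 E ≤
      ENNReal.ofReal (1 / 2) * SMu P Δ u θ 0 E := by
    calc ENNReal.ofReal (4 / θ) * SBu P Δ u u θ 0 E
        ≤ ENNReal.ofReal (4 / θ) * ((∑ q ∈ Finset.Ico (q0 P u) (q1 P u), ENNReal.ofReal (c q)) *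
          SMu P Δ u θ 0 E) := by gcongr
      _ = ENNReal.ofReal (4 / θ * ∑ q ∈ Finset.Ico (q0 P u) (q1 P u), c q) *
          SMu P Δ u θ 0 E := by
        rw [← mul_assoc, ← ENNReal.ofReal_sum_of_nonneg (fun q _ => hc0 q),
          ← ENNReal.ofReal_mul (by positivity)]
      _ ≤ ENNReal.ofReal (1 / 2) * SMu P Δ u θ 0 E := by gcongr
  have hM2 : SMu P Δ u θ 0 E ≤ ENNReal.ofReal (4 / θ) * (ENNReal.ofReal C * volume E) +
      ENNReal.ofReal (1 / 2) * SMu P Δ u θ 0 E := by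
    refine le_trans hM ?_
    rw [mul_add]
    gcongr
  -- conclusion
  rw [← hS]
  set S := SMu P Δ u θ 0 E with hSdef
  lift S to NNReal using hfin with s hs
  have hVE : volume E ≠ ⊤ := hEfin.ne
  have hθC : 0 ≤ 4 / θ := by positivity
  have e1 : ENNReal.ofReal (8 * C / θ) * volume E =
      2 * (ENNReal.ofReal (4 / θ) * (ENNReal.ofReal C * volume E)) := by
    rw [← mul_assoc (ENNReal.ofReal (4 / θ)), ← ENNReal.ofReal_mul hθC, ← mul_assoc]
    congr 1
    rw [show (2 : ℝ≥0∞) = ENNReal.ofReal 2 by norm_num, ← ENNReal.ofReal_mul (by norm_num)]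
    congr 1
    ring
  rw [e1]
  set Z := ENNReal.ofReal (4 / θ) * (ENNReal.ofReal C * volume E) with hZ
  have hZfin : Z ≠ ⊤ := ENNReal.mul_ne_top ENNReal.ofReal_ne_top
    (ENNReal.mul_ne_top ENNReal.ofReal_ne_top hVE)
  lift Z to NNReal using hZfin with t ht
  have e2 : ENNReal.ofReal (1 / 2) = ((1 / 2 : NNReal) : ℝ≥0∞) := by
    rw [ENNReal.ofReal]
    congr 1
    ext
    simp
  rw [e2] at hM2
  have h3 : s ≤ t + 1 / 2 * s := by exact_mod_cast hM2
  have h4 : s ≤ 2 * t := by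
    have h5 : (s : ℝ) ≤ t + 1 / 2 * s := by exact_mod_cast h3
    have h6 : (s : ℝ) ≤ 2 * t := by linarith
    exact_mod_cast h6
  exact_mod_cast h4

end Pool.Agent.Helper11.EP
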